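import Mathlib
import Pool.Agent.H11.LMComb

/-!
# MP_34e3ac_co : nonsingularity of the adjacency matrix of the Hasse diagram of `L(m,n)`

`A(m,n)` is nonsingular if and only if `m` and `n` are both odd and `min m n` is smaller than the
smallest prime factor of `m + n + 1`.

Idea: the Hasse diagram of `L(m,n)` describes `m` free fermions hopping on a path with `m + n`
sites, so the eigenvalues of `A(m,n)` are the sums of `m` distinct numbers
`2 cos (π j / (m + n + 1))`, `1 ≤ j ≤ m + n`; whether such a sum can vanish is decided by a theorem
on vanishing sums of roots of unity.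
-/

namespace Pool.Agent.Results.MP_34e3ac_co.MinFac

open Pool.Agent.H11.LM

/-- **Complete determination.** For positive integers `m, n`, the adjacency matrix `A m n` of the
Hasse diagram of `L(m,n)` is nonsingular iff `m` and `n` are odd and
`min m n < (m + n + 1).minFac`, the smallest prime factor of `m + n + 1`. -/
theorem result (m n : ℕ) (hm : 1 ≤ m) (hn : 1 ≤ n) :
    (A m n).det ≠ 0 ↔ Odd m ∧ Odd n ∧ min m n < (m + n + 1).minFac :=
  main hm hn

end Pool.Agent.Results.MP_34e3ac_co.MinFac
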